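import Pool.Agent.Helper25_CON.Stmts

/-! Squad CON, module B_KER. -/

noncomputable section

namespace Pool.Agent.CON.H97

open Pool.Agent.CON

/-- the form as an additive map of the first variable -/
def bl {A : Type} [AddCommGroup A] {b : A → A → ℤ} {q : A → ℤ} (hb : QF b q) (y : A) :
    A →+ ℤ := AddMonoidHom.mk' (fun x => b x y) (fun x x' => hb.add_left x x' y)

theorem bl_sum {A : Type} [AddCommGroup A] {b : A → A → ℤ} {q : A → ℤ} (hb : QF b q)
    {m : ℕ} (z : Fin m → ℤ) (c : Fin m → A) (y : A) :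
    b (∑ i, z i • c i) y = ∑ i, z i * b (c i) y := by
  change bl hb y (∑ i, z i • c i) = _
  rw [map_sum]
  refine Finset.sum_congr rfl fun i _ => ?_
  rw [map_zsmul, smul_eq_mul]
  rfl

theorem b_ker : B_KER := by
  intro A _ b q Y p k φ a hb hp ha hY hI
  have : Fact p.Prime := ⟨hp⟩
  obtain ⟨c, -, hc⟩ := hI
  -- the functionals
  let ell : (Fin (k + 2) → ℤ) → ((Fin (k + 2) → ZMod p) →ₗ[ZMod p] ZMod p) := fun g =>
    ∑ i, ((g i : ℤ) : ZMod p) • LinearMap.proj i
  have ell_apply : ∀ g w, ell g w = ∑ i, ((g i : ℤ) : ZMod p) * w i := by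
    intro g w
    simp [ell]
  let T : (Fin (k + 2) → ZMod p) →ₗ[ZMod p] (ZMod p × ZMod p) :=
    (ell fun i => φ (c i)).prod (ell fun i => b (c i) a)
  have hN : k ≤ Module.finrank (ZMod p) (LinearMap.ker T) := by
    have h1 := LinearMap.finrank_range_add_finrank_ker T
    have h2 : Module.finrank (ZMod p) (LinearMap.range T) ≤ 2 := by
      refine (Submodule.finrank_le _).trans ?_
      rw [Module.finrank_prod, Module.finrank_self]
    rw [Module.finrank_fin_fun] at h1
    omega
  obtain ⟨v, hv⟩ := exists_linearIndependent_of_le_finrank hN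
  have hvφ : ∀ w ∈ LinearMap.ker T, ∑ i, ((φ (c i) : ℤ) : ZMod p) * w i = 0 := by
    intro w hw
    have := congrArg Prod.fst (LinearMap.mem_ker.1 hw)
    simpa [T, ell_apply] using this
  have hva : ∀ w ∈ LinearMap.ker T, ∑ i, ((b (c i) a : ℤ) : ZMod p) * w i = 0 := by
    intro w hw
    have := congrArg Prod.snd (LinearMap.mem_ker.1 hw)
    simpa [T, ell_apply] using this
  -- the key point
  have key : ∀ w ∈ LinearMap.ker T,
      (∀ y ∈ Y, ∑ i, ((b (c i) y : ℤ) : ZMod p) * w i = 0) → w = 0 := by
    intro w hw h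
    have hall : ∀ y : A, ∑ i, ((b (c i) y : ℤ) : ZMod p) * w i = 0 := by
      intro y
      have hy : y - φ y • a ∈ Y := by
        rw [hY, map_sub, map_zsmul, ha]
        simp
      have hdec : ∀ x : A, b x y = b x (y - φ y • a) + φ y * b x a := by
        intro x
        rw [hb.symm x y, hb.symm x (y - φ y • a), hb.symm x a]
        have h1 : b y x = bl hb x ((y - φ y • a) + φ y • a) := by
          rw [sub_add_cancel]; rfl
        rw [h1, map_add, map_zsmul, smul_eq_mul]
        rfl
      calc ∑ i, ((b (c i) y : ℤ) : ZMod p) * w i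
          = ∑ i, ((b (c i) (y - φ y • a) : ℤ) : ZMod p) * w i
            + ((φ y : ℤ) : ZMod p) * ∑ i, ((b (c i) a : ℤ) : ZMod p) * w i := by
            rw [Finset.mul_sum, ← Finset.sum_add_distrib]
            refine Finset.sum_congr rfl fun i _ => ?_
            rw [hdec (c i)]; push_cast; ring
        _ = 0 := by rw [h _ hy, hva w hw, mul_zero, add_zero]
    have hz := hc (fun i => ((w i).val : ℤ)) (fun y _ => by
      rw [bl_sum hb, ← ZMod.intCast_zmod_eq_zero_iff_dvd]
      push_cast
      rw [← hall y]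
      refine Finset.sum_congr rfl fun i _ => ?_
      rw [ZMod.natCast_zmod_val, mul_comm])
    funext i
    have := (ZMod.intCast_zmod_eq_zero_iff_dvd _ _).2 (hz i)
    push_cast at this
    rwa [ZMod.natCast_zmod_val] at this
  -- the new vectors
  let d : Fin k → A := fun l => ∑ i, (((v l : Fin (k + 2) → ZMod p) i).val : ℤ) • c i
  have hdφ : ∀ l, ((φ (d l) : ℤ) : ZMod p) = 0 := by
    intro l
    rw [← hvφ _ (v l).2]
    simp only [d, map_sum, map_zsmul, smul_eq_mul]
    push_cast
    refine Finset.sum_congr rfl fun i _ => ?_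
    rw [ZMod.natCast_zmod_val, mul_comm]
  refine ⟨fun l => d l - φ (d l) • a, fun l => ?_, ?_⟩
  · rw [hY, map_sub, map_zsmul, ha]
    simp
  · intro t ht
    have hw : (∑ l, ((t l : ℤ) : ZMod p) • v l) = 0 := by
      apply Subtype.ext
      refine key _ (Subtype.mem _) ?_
      intro y hy
      have h1 := (ZMod.intCast_zmod_eq_zero_iff_dvd _ _).2 (ht y hy)
      rw [bl_sum hb] at h1
      push_cast at h1
      rw [← h1]
      simp only [Submodule.coe_sum, Submodule.coe_smul, Finset.sum_apply, Pi.smul_apply,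
        smul_eq_mul, Finset.mul_sum]
      rw [Finset.sum_comm]
      refine Finset.sum_congr rfl fun l _ => ?_
      have h2 : b (d l - φ (d l) • a) y = b (d l) y - φ (d l) * b a y := by
        change bl hb y (d l - φ (d l) • a) = bl hb y (d l) - φ (d l) * bl hb y a
        rw [map_sub, map_zsmul, smul_eq_mul]
      rw [h2]
      push_cast
      rw [hdφ l, zero_mul, sub_zero]
      have h3 : b (d l) y = ∑ i, (((v l : Fin (k + 2) → ZMod p) i).val : ℤ) * b (c i) y :=
        bl_sum hb _ _ _
      rw [h3]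
      push_cast
      rw [Finset.mul_sum]
      refine Finset.sum_congr rfl fun i _ => ?_
      rw [ZMod.natCast_zmod_val]; ring
    intro l
    have := (Fintype.linearIndependent_iff.1 hv) (fun l => ((t l : ℤ) : ZMod p)) hw l
    exact (ZMod.intCast_zmod_eq_zero_iff_dvd _ _).1 this

end Pool.Agent.CON.H97

end
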