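import Pool.Agent.Helper25_CON.Stmts

/-! Squad CON, module B_HYP. -/

noncomputable section

namespace Pool.Agent.CON.H97h

open Pool.Agent.CON MvPolynomial

section

variable {A : Type} [AddCommGroup A] {b : A → A → ℤ} {q : A → ℤ}

/-- the form as an additive map of the first variable -/
def bl (hb : QF b q) (y : A) : A →+ ℤ :=
  AddMonoidHom.mk' (fun x => b x y) (fun x x' => hb.add_left x x' y)

theorem bl_apply (hb : QF b q) (x y : A) : bl hb y x = b x y := rfl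

theorem zsmul_left (hb : QF b q) (c : ℤ) (x y : A) : b (c • x) y = c * b x y := by
  have := map_zsmul (bl hb y) c x
  simpa [bl_apply] using this

theorem zsmul_right (hb : QF b q) (c : ℤ) (x y : A) : b x (c • y) = c * b x y := by
  rw [hb.symm, zsmul_left hb, hb.symm y]

theorem q_zsmul (hb : QF b q) (c : ℤ) (x : A) : q (c • x) = c ^ 2 * q x := by
  have h1 := hb.self (c • x)
  rw [zsmul_left hb, zsmul_right hb, hb.self] at h1
  linarith [h1]

theorem add_right (hb : QF b q) (x y z : A) : b x (y + z) = b x y + b x z := by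
  rw [hb.symm, hb.add_left, hb.symm y, hb.symm z]

theorem q_three (hb : QF b q) (x y z : ℤ) (c d e : A) :
    q (x • c + y • d + z • e) = x ^ 2 * q c + y ^ 2 * q d + z ^ 2 * q e + x * y * b c d +
      x * z * b c e + y * z * b d e := by
  rw [hb.q_add, hb.q_add, hb.add_left, q_zsmul hb, q_zsmul hb, q_zsmul hb, zsmul_left hb,
    zsmul_left hb, zsmul_left hb, zsmul_right hb, zsmul_right hb, zsmul_right hb]
  ring

/-- a ternary quadratic form has a nontrivial zero modulo p -/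
theorem chev (p : ℕ) [Fact p.Prime] (a0 a1 a2 b01 b02 b12 : ZMod p) :
    ∃ x : Fin 3 → ZMod p, x ≠ 0 ∧ x 0 ^ 2 * a0 + x 1 ^ 2 * a1 + x 2 ^ 2 * a2 + x 0 * x 1 * b01 +
      x 0 * x 2 * b02 + x 1 * x 2 * b12 = 0 := by
  classical
  let f : MvPolynomial (Fin 3) (ZMod p) := X 0 ^ 2 * C a0 + X 1 ^ 2 * C a1 + X 2 ^ 2 * C a2 +
    X 0 * X 1 * C b01 + X 0 * X 2 * C b02 + X 1 * X 2 * C b12
  have hsq : ∀ (i : Fin 3) (a : ZMod p), (X i ^ 2 * C a : MvPolynomial (Fin 3) (ZMod p)).totalDegree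
      ≤ 2 := by
    intro i a
    refine (totalDegree_mul _ _).trans ?_
    rw [totalDegree_C, add_zero]
    refine (totalDegree_pow _ _).trans ?_
    rw [totalDegree_X]
  have hxy : ∀ (i j : Fin 3) (a : ZMod p),
      (X i * X j * C a : MvPolynomial (Fin 3) (ZMod p)).totalDegree ≤ 2 := by
    intro i j a
    refine (totalDegree_mul _ _).trans ?_
    rw [totalDegree_C, add_zero]
    refine (totalDegree_mul _ _).trans ?_
    rw [totalDegree_X, totalDegree_X]
  have hadd : ∀ g h : MvPolynomial (Fin 3) (ZMod p), g.totalDegree ≤ 2 → h.totalDegree ≤ 2 →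
      (g + h).totalDegree ≤ 2 := fun g h hg hh => (totalDegree_add g h).trans (max_le hg hh)
  have hdeg : f.totalDegree ≤ 2 := by
    refine hadd _ _ (hadd _ _ (hadd _ _ (hadd _ _ (hadd _ _ (hsq _ _) (hsq _ _)) (hsq _ _))
      (hxy _ _ _)) (hxy _ _ _)) (hxy _ _ _)
  have hlt : f.totalDegree < Fintype.card (Fin 3) := by
    rw [Fintype.card_fin]
    omega
  have hdvd := char_dvd_card_solutions p hlt
  have heval : ∀ x : Fin 3 → ZMod p, eval x f = x 0 ^ 2 * a0 + x 1 ^ 2 * a1 + x 2 ^ 2 * a2 +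
      x 0 * x 1 * b01 + x 0 * x 2 * b02 + x 1 * x 2 * b12 := by
    intro x
    simp [f]
  have h0 : eval (0 : Fin 3 → ZMod p) f = 0 := by
    rw [heval]
    simp
  have hcard : 1 < Fintype.card {x : Fin 3 → ZMod p // eval x f = 0} := by
    have hpos : 0 < Fintype.card {x : Fin 3 → ZMod p // eval x f = 0} :=
      Fintype.card_pos_iff.2 ⟨⟨0, h0⟩⟩
    have h2 := Nat.le_of_dvd hpos hdvd
    have h3 := (Fact.out : p.Prime).two_le
    omega
  obtain ⟨y, hy⟩ := Fintype.exists_ne_of_one_lt_card hcard ⟨0, h0⟩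
  refine ⟨y.1, fun h => hy (Subtype.ext h), ?_⟩
  rw [← heval]
  exact y.2

end

theorem b_hyp : B_HYP := by
  intro A _ b q Y p hb hp hI
  have : Fact p.Prime := ⟨hp⟩
  obtain ⟨c, hcY, hc⟩ := hI
  obtain ⟨x, hx0, hx⟩ := chev p (q (c 0)) (q (c 1)) (q (c 2)) (b (c 0) (c 1)) (b (c 0) (c 2))
    (b (c 1) (c 2))
  let z : Fin 3 → ℤ := fun i => ((x i).val : ℤ)
  have hz : ∀ i, ((z i : ℤ) : ZMod p) = x i := by
    intro i
    simp only [z]
    push_cast
    rw [ZMod.natCast_zmod_val]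
  let u : A := ∑ i, z i • c i
  have hu3 : u = z 0 • c 0 + z 1 • c 1 + z 2 • c 2 := by
    simp only [u, Fin.sum_univ_three]
  have huY : u ∈ Y := Y.sum_mem fun i _ => Y.zsmul_mem (hcY i) _
  have hqu : (p : ℤ) ∣ q u := by
    rw [← ZMod.intCast_zmod_eq_zero_iff_dvd, hu3, q_three hb]
    push_cast
    rw [hz, hz, hz]
    exact hx
  -- u is not in the radical
  obtain ⟨y, hyY, hy⟩ : ∃ y ∈ Y, ¬ (p : ℤ) ∣ b u y := by
    by_contra h
    push Not at h
    apply hx0
    funext i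
    have h1 := hc z h i
    rw [← ZMod.intCast_zmod_eq_zero_iff_dvd, hz] at h1
    exact h1
  -- scaling
  obtain ⟨t, ht⟩ : ∃ t : ℤ, (p : ℤ) ∣ t * b u y - 1 := by
    have h1 : ((b u y : ℤ) : ZMod p) ≠ 0 := by
      rw [Ne, ZMod.intCast_zmod_eq_zero_iff_dvd]
      exact hy
    refine ⟨((((b u y : ℤ) : ZMod p)⁻¹).val : ℤ), ?_⟩
    rw [← ZMod.intCast_zmod_eq_zero_iff_dvd]
    push_cast
    rw [ZMod.natCast_zmod_val, inv_mul_cancel₀ h1, sub_self]
  obtain ⟨y', hy'Y, hbuy⟩ : ∃ y' ∈ Y, (p : ℤ) ∣ b u y' - 1 := by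
    refine ⟨t • y, Y.zsmul_mem hyY _, ?_⟩
    rw [zsmul_right hb]
    exact ht
  obtain ⟨k, hk⟩ := hqu
  obtain ⟨l, hl⟩ := hbuy
  refine ⟨u, huY, y' - q y' • u, Y.sub_mem hy'Y (Y.zsmul_mem huY _), ⟨k, hk⟩, ?_, ?_⟩
  · have e : y' - q y' • u = y' + (-q y') • u := by
      rw [neg_smul, sub_eq_add_neg]
    rw [e, hb.q_add, q_zsmul hb, zsmul_right hb, hk, hb.symm y' u]
    have h2 : b u y' = p * l + 1 := by linarith
    rw [h2]
    exact ⟨(-q y') ^ 2 * k - q y' * l, by ring⟩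
  · have e : y' - q y' • u = y' + (-q y') • u := by
      rw [neg_smul, sub_eq_add_neg]
    rw [e, add_right hb, zsmul_right hb, hb.self, hk]
    have h2 : b u y' = p * l + 1 := by linarith
    rw [h2]
    exact ⟨l - 2 * q y' * k, by ring⟩

end Pool.Agent.CON.H97h

end
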